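import Pool.Agent.Y520.MS.Tst

/-!
# Functions of several variables which preserve multiplier sequences
-/

set_option autoImplicit false

namespace Pool.Agent.Y520.MS

open Polynomial Pool.Agent.Helper771.MultSeq

/-- `Ψ` (a function of `n` variables) is admissible: termwise application to `n` multiplier
sequences with nonnegative terms always gives a multiplier sequence. -/
def AdmissibleN {n : ℕ} (Ψ : (Fin n → ℝ) → ℝ) : Prop :=
  ∀ α : Fin n → ℕ → ℝ, (∀ i k, 0 ≤ α i k) → (∀ i, IsMultiplierSequence (α i)) →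
    IsMultiplierSequence (fun k => Ψ fun i => α i k)

/-- The same for all real multiplier sequences. -/
def AdmissibleR {n : ℕ} (Ψ : (Fin n → ℝ) → ℝ) : Prop :=
  ∀ α : Fin n → ℕ → ℝ, (∀ i, IsMultiplierSequence (α i)) →
    IsMultiplierSequence (fun k => Ψ fun i => α i k)

/-! ### Nonnegative sequences -/

theorem ms_prod {n : ℕ} {α : Fin n → ℕ → ℝ} (h : ∀ i, IsMultiplierSequence (α i))
    (m : Fin n → ℕ) : IsMultiplierSequence (fun k => ∏ i, α i k ^ m i) := by
  have : ∀ s : Finset (Fin n), IsMultiplierSequence (fun k => ∏ i ∈ s, α i k ^ m i) := by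
    intro s
    induction s using Finset.induction_on with
    | empty => simpa using ms_const 1
    | insert a s ha ih =>
      simp only [Finset.prod_insert ha]
      exact ms_mul (ms_pow (h a) (m a)) ih
  exact this Finset.univ

theorem pow_eq_aux {p q a b : ℕ} (h : (3 : ℝ) ^ p * 2 ^ a = 2 ^ b * 3 ^ q) : p = q := by
  have h' : 3 ^ p * 2 ^ a = 2 ^ b * 3 ^ q := by exact_mod_cast h
  have h1 : 3 ^ p ∣ 3 ^ q := by
    have h2 : 3 ^ p ∣ 2 ^ b * 3 ^ q := ⟨2 ^ a, h'.symm⟩
    exact (Nat.Coprime.pow p b (by norm_num : Nat.Coprime 3 2)).dvd_of_dvd_mul_left h2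
  have h3 : 3 ^ q ∣ 3 ^ p := by
    have h2 : 3 ^ q ∣ 2 ^ a * 3 ^ p := ⟨2 ^ b, by rw [mul_comm (2 ^ a), h', mul_comm]⟩
    exact (Nat.Coprime.pow q a (by norm_num : Nat.Coprime 3 2)).dvd_of_dvd_mul_left h2
  exact le_antisymm ((Nat.pow_dvd_pow_iff_le_right (by norm_num)).1 h1)
    ((Nat.pow_dvd_pow_iff_le_right (by norm_num)).1 h3)

/-- `Ψ` is admissible in each variable separately, and only for the test sequences: for all
nonnegative values of the other variables, every test sequence put in one variable gives a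
multiplier sequence. -/
def AdmissibleSep {n : ℕ} (Ψ : (Fin n → ℝ) → ℝ) : Prop :=
  ∀ (i : Fin n) (x : Fin n → ℝ), (∀ j, 0 ≤ x j) → ∀ β : ℕ → ℝ, Test β →
    IsMultiplierSequence (fun k => Ψ (Function.update x i (β k)))

theorem AdmissibleN.sep {n : ℕ} {Ψ : (Fin n → ℝ) → ℝ} (h : AdmissibleN Ψ) : AdmissibleSep Ψ := by
  intro i x hx β hβ
  refine h (fun j k => Function.update x i (β k) j) ?_ ?_
  · intro j k
    by_cases hj : j = i
    · subst hj; simpa using hβ.nonneg k
    · simpa [Function.update_of_ne hj] using hx j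
  · intro j
    by_cases hj : j = i
    · subst hj; simpa using hβ.ms
    · simpa [Function.update_of_ne hj] using ms_const (x j)

theorem AdmissibleSep.fix_head {n : ℕ} {Ψ : (Fin (n + 1) → ℝ) → ℝ} (h : AdmissibleSep Ψ) {y : ℝ}
    (hy : 0 ≤ y) : AdmissibleSep (fun x : Fin n → ℝ => Ψ (Fin.cons y x)) := by
  intro i x hx β hβ
  have h1 := h i.succ (Fin.cons y x) (by
    intro j
    refine Fin.cases ?_ (fun j => ?_) j
    · simpa using hy
    · simpa using hx j) β hβ
  simpa only [Fin.cons_update] using h1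

theorem AdmissibleSep.fix_tail {n : ℕ} {Ψ : (Fin (n + 1) → ℝ) → ℝ} (h : AdmissibleSep Ψ)
    {x : Fin n → ℝ} (hx : ∀ i, 0 ≤ x i) : PresT (fun y => Ψ (Fin.cons y x)) := by
  intro β hβ
  have h1 := h 0 (Fin.cons 0 x) (by
    intro j
    refine Fin.cases ?_ (fun j => ?_) j
    · simp
    · simpa using hx j) β hβ
  simpa only [Fin.update_cons_zero] using h1

theorem prod_update_two {n : ℕ} (m : Fin n → ℕ) (i : Fin n) :
    ∏ j, (Function.update (fun _ => (1 : ℝ)) i 2 : Fin n → ℝ) j ^ m j = 2 ^ m i := by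
  rw [Finset.prod_eq_single i]
  · simp
  · intro j _ hj
    rw [Function.update_of_ne hj, one_pow]
  · simp

theorem classifySep_mp : ∀ (n : ℕ) (Ψ : (Fin n → ℝ) → ℝ), AdmissibleSep Ψ →
    ∃ (c : ℝ) (m : Fin n → ℕ), ∀ x : Fin n → ℝ, (∀ i, 0 ≤ x i) → Ψ x = c * ∏ i, x i ^ m i := by
  intro n
  induction n with
  | zero =>
    intro Ψ _
    refine ⟨Ψ 0, 0, fun x _ => ?_⟩
    simp [Subsingleton.elim x 0]
  | succ n ih =>
    intro Ψ hΨ
    have h1 : ∀ y : ℝ, ∃ (c : ℝ) (m : Fin n → ℕ), 0 ≤ y → ∀ x : Fin n → ℝ, (∀ i, 0 ≤ x i) →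
        Ψ (Fin.cons y x) = c * ∏ i, x i ^ m i := by
      intro y
      by_cases hy : 0 ≤ y
      · obtain ⟨c, m, h⟩ := ih _ (hΨ.fix_head hy)
        exact ⟨c, m, fun _ => h⟩
      · exact ⟨0, 0, fun h => absurd h hy⟩
    choose c m hcm using h1
    have hone : ∀ i : Fin n, (0 : ℝ) ≤ (fun _ : Fin n => (1 : ℝ)) i := fun i => zero_le_one
    obtain ⟨c', p, hp⟩ := (hΨ.fix_tail hone).classify
    have hc1 : c' = c 1 := by
      have e1 := hp 1 zero_le_one
      have e2 := hcm 1 zero_le_one (fun _ => 1) hone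
      rw [e2] at e1
      simpa using e1.symm
    have hcy : ∀ y, 0 ≤ y → c y = c 1 * y ^ p := by
      intro y hy
      have e1 := hp y hy
      have e2 := hcm y hy (fun _ => 1) hone
      rw [e2, hc1] at e1
      simpa using e1
    have key : ∀ y, 0 ≤ y → ∀ x : Fin n → ℝ, (∀ i, 0 ≤ x i) →
        Ψ (Fin.cons y x) = c 1 * y ^ p * ∏ i, x i ^ m 1 i := by
      intro y hy x hx
      rw [hcm y hy x hx, hcy y hy]
      by_cases hc0 : c 1 * y ^ p = 0
      · rw [hc0]; simp
      · have hc10 : c 1 ≠ 0 := left_ne_zero_of_mul hc0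
        have hyp : y ^ p ≠ 0 := right_ne_zero_of_mul hc0
        have hm : m y = m 1 := by
          funext i
          have he : ∀ j : Fin n, (0 : ℝ) ≤ (Function.update (fun _ => (1 : ℝ)) i 2 : Fin n → ℝ) j := by
            intro j
            by_cases hj : j = i
            · subst hj; simp
            · rw [Function.update_of_ne hj]; exact zero_le_one
          obtain ⟨c2, q, hq⟩ := (hΨ.fix_tail he).classify
          have f : ∀ z, 0 ≤ z → c 1 * z ^ p * 2 ^ m z i = c2 * z ^ q := by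
            intro z hz
            rw [← hq z hz, hcm z hz _ he, hcy z hz, prod_update_two]
          have f1 := f 1 zero_le_one
          simp only [one_pow, mul_one] at f1
          have f3 := f 3 (by norm_num)
          rw [← f1, mul_assoc, mul_assoc] at f3
          have f4 := pow_eq_aux (mul_left_cancel₀ hc10 f3)
          have fy := f y hy
          rw [← f1, ← f4, mul_assoc, mul_assoc] at fy
          have fy2 := mul_left_cancel₀ hc10 fy
          rw [mul_comm] at fy2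
          have fy3 := mul_right_cancel₀ hyp fy2
          have fy4 : (2 : ℕ) ^ m y i = 2 ^ m 1 i := by exact_mod_cast fy3
          exact Nat.pow_right_injective (le_refl 2) fy4
        rw [hm]
    refine ⟨c 1, Fin.cons p (m 1), fun z hz => ?_⟩
    have hz' : z = Fin.cons (z 0) (fun i => z i.succ) := by
      funext i
      refine Fin.cases ?_ (fun j => ?_) i <;> simp
    rw [Fin.prod_univ_succ]
    conv_lhs => rw [hz']
    rw [key (z 0) (hz 0) _ (fun i => hz i.succ)]
    simp [mul_assoc]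

theorem classifyN_mpr {n : ℕ} {Ψ : (Fin n → ℝ) → ℝ} (hh : ∃ (c : ℝ) (m : Fin n → ℕ),
    ∀ x : Fin n → ℝ, (∀ i, 0 ≤ x i) → Ψ x = c * ∏ i, x i ^ m i) : AdmissibleN Ψ := by
  obtain ⟨c, m, h⟩ := hh
  intro α h0 hα
  have h1 : (fun k => Ψ fun i => α i k) = fun k => c * ∏ i, α i k ^ m i := by
    funext k
    exact h _ (fun i => h0 i k)
  rw [h1]
  exact ms_mul (ms_const c) (ms_prod hα m)

theorem classifyN_mp (n : ℕ) (Ψ : (Fin n → ℝ) → ℝ) (h : AdmissibleN Ψ) :
    ∃ (c : ℝ) (m : Fin n → ℕ), ∀ x : Fin n → ℝ, (∀ i, 0 ≤ x i) → Ψ x = c * ∏ i, x i ^ m i :=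
  classifySep_mp n Ψ h.sep

theorem classifyN {n : ℕ} (Ψ : (Fin n → ℝ) → ℝ) : AdmissibleN Ψ ↔
    ∃ (c : ℝ) (m : Fin n → ℕ), ∀ x : Fin n → ℝ, (∀ i, 0 ≤ x i) → Ψ x = c * ∏ i, x i ^ m i :=
  ⟨classifyN_mp n Ψ, classifyN_mpr⟩

theorem classifySep {n : ℕ} (Ψ : (Fin n → ℝ) → ℝ) : AdmissibleSep Ψ ↔
    ∃ (c : ℝ) (m : Fin n → ℕ), ∀ x : Fin n → ℝ, (∀ i, 0 ≤ x i) → Ψ x = c * ∏ i, x i ^ m i :=
  ⟨classifySep_mp n Ψ, fun h => (classifyN_mpr h).sep⟩

end Pool.Agent.Y520.MS
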