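import Pool.Agent.Y520.MS.Multi

/-!
# Functions of several variables which preserve all real multiplier sequences
-/

set_option autoImplicit false

namespace Pool.Agent.Y520.MS

open Polynomial Pool.Agent.Helper771.MultSeq

/-! ### Shifts, gaps and signs -/

theorem orz_X_pow_mul {m : ℕ} {p : ℝ[X]} (h : OnlyRealZeros p) : OnlyRealZeros (X ^ m * p) := by
  rcases h with h | h
  · left; rw [h, mul_zero]
  · right
    intro z hz
    rw [map_mul, map_pow, aeval_X] at hz
    rcases mul_eq_zero.1 hz with h1 | h1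
    · rw [pow_eq_zero_iff'] at h1
      rw [h1.1]; simp
    · exact h z h1

theorem ms_shift {γ : ℕ → ℝ} (h : IsMultiplierSequence γ) (m : ℕ) :
    IsMultiplierSequence (fun k => γ (m + k)) := by
  intro p hp
  have h1 := h _ (orz_X_pow_mul (m := m) hp)
  have h2 : act γ (X ^ m * p) = X ^ m * act (fun k => γ (m + k)) p := by
    ext k
    rw [act_eq, coeff_X_pow_mul', coeff_X_pow_mul']
    split_ifs with hk
    · rw [act_eq, Nat.add_sub_cancel' hk]
    · simp
  rw [h2] at h1
  exact orz_of_X_pow_mul h1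

/-- A real number `w ≠ 0` has a nonreal root of order `g ≥ 3`. -/
theorem exists_nonreal_root {g : ℕ} (hg : 3 ≤ g) {w : ℂ} (hw : w ≠ 0) :
    ∃ z : ℂ, z ^ g = w ∧ z.im ≠ 0 := by
  obtain ⟨z0, hz0⟩ := IsAlgClosed.exists_pow_nat_eq w (show 0 < g by omega)
  by_cases him : z0.im = 0
  · have hne : z0 ≠ 0 := by
      rintro rfl
      rw [zero_pow (by omega)] at hz0
      exact hw hz0.symm
    have hre : z0.re ≠ 0 := by
      intro h0
      exact hne (Complex.ext h0 him)
    refine ⟨z0 * Complex.exp (2 * Real.pi * Complex.I / g), ?_, ?_⟩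
    · have hz : (Complex.exp (2 * Real.pi * Complex.I / g)) ^ g = 1 := by
        rw [← Complex.exp_nat_mul]
        have hg0 : (g : ℂ) ≠ 0 := by
          have : g ≠ 0 := by omega
          exact_mod_cast this
        rw [mul_div_cancel₀ _ hg0, Complex.exp_two_pi_mul_I]
      rw [mul_pow, hz, mul_one, hz0]
    · have e1 : (2 * Real.pi * Complex.I / g : ℂ) = ((2 * Real.pi / g : ℝ) : ℂ) * Complex.I := by
        push_cast; ring
      rw [e1, Complex.mul_im, Complex.exp_ofReal_mul_I_re, Complex.exp_ofReal_mul_I_im, him,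
        zero_mul, add_zero]
      have hgpos : (0 : ℝ) < g := by
        have : 0 < g := by omega
        exact_mod_cast this
      have hg3 : (3 : ℝ) ≤ g := by exact_mod_cast hg
      have hs : 0 < Real.sin (2 * Real.pi / g) := by
        apply Real.sin_pos_of_pos_of_lt_pi
        · positivity
        · rw [div_lt_iff₀ hgpos]
          nlinarith [Real.pi_pos]
      exact mul_ne_zero hre hs.ne'
  · exact ⟨z0, hz0, him⟩

theorem gap_aux {δ : ℕ → ℝ} (h : IsMultiplierSequence δ) {g : ℕ} (hg : 2 ≤ g) (h0 : δ 0 ≠ 0)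
    (hgne : δ g ≠ 0) (hz : ∀ j, 0 < j → j < g → δ j = 0) : False := by
  have hact : act δ ((X : ℝ[X]) ^ 0 * (1 + X) ^ g) = C (δ 0) + C (δ g) * X ^ g := by
    ext k
    rw [pow_zero, one_mul, act_eq, coeff_one_add_X_pow, coeff_add, coeff_C, coeff_C_mul,
      coeff_X_pow]
    rcases Nat.lt_trichotomy k g with hk | hk | hk
    · rcases Nat.eq_zero_or_pos k with h1 | h1
      · subst h1
        rw [if_pos rfl, if_neg (by omega)]; simp
      · rw [hz k h1 hk, if_neg (by omega), if_neg (by omega)]; simp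
    · subst hk
      rw [if_neg (by omega), if_pos rfl]; simp
    · rw [Nat.choose_eq_zero_of_lt hk, if_neg (by omega), if_neg (by omega)]; simp
  have hr := h _ (orz_base 0 g)
  rw [hact] at hr
  have hne : C (δ 0) + C (δ g) * X ^ g ≠ (0 : ℝ[X]) := by
    intro h2
    have := congrArg (fun p => coeff p g) h2
    simp only [coeff_add, coeff_C, coeff_C_mul, coeff_X_pow, coeff_zero] at this
    rw [if_neg (by omega)] at this
    simp at this
    exact hgne this
  have hroot := hr.resolve_left hne
  have hgC : (δ g : ℂ) ≠ 0 := by exact_mod_cast hgne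
  have h0C : (δ 0 : ℂ) ≠ 0 := by exact_mod_cast h0
  have hw : (-(δ 0 : ℂ) / δ g) ≠ 0 := div_ne_zero (neg_ne_zero.2 h0C) hgC
  have hzero : ∀ z : ℂ, z ^ g = -(δ 0 : ℂ) / δ g → z.im = 0 := by
    intro z hzg
    apply hroot
    simp only [map_add, map_mul, map_pow, aeval_C, aeval_X, Complex.coe_algebraMap]
    rw [hzg, mul_div_cancel₀ _ hgC]
    ring
  rcases Nat.lt_or_ge g 3 with h3 | h3
  · have hg2 : g = 2 := by omega
    subst hg2
    have hs := ms_sign h
    obtain ⟨z0, hz0⟩ := IsAlgClosed.exists_pow_nat_eq (-(δ 0 : ℂ) / δ 2) (show 0 < 2 by norm_num)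
    have him := hzero z0 hz0
    have hz0r : z0 = (z0.re : ℂ) := Complex.ext (by simp) (by simp [him])
    rw [hz0r] at hz0
    have hr2 : z0.re ^ 2 = - δ 0 / δ 2 := by exact_mod_cast hz0
    have h5 : 0 ≤ - δ 0 / δ 2 := by rw [← hr2]; positivity
    have h6 : 0 ≤ (- δ 0 / δ 2) * (δ 2) ^ 2 := mul_nonneg h5 (sq_nonneg _)
    have h7 : (- δ 0 / δ 2) * (δ 2) ^ 2 = -(δ 0 * δ 2) := by
      field_simp
    rw [h7] at h6
    have h8 : δ 0 * δ 2 = 0 := le_antisymm (by linarith) hs
    exact mul_ne_zero h0 hgne h8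
  · obtain ⟨z, hz1, hz2⟩ := exists_nonreal_root h3 hw
    exact hz2 (hzero z hz1)

theorem next_ne {γ : ℕ → ℝ} (h : IsMultiplierSequence γ) {k g : ℕ} (hg : 1 ≤ g) (h0 : γ k ≠ 0)
    (h1 : γ (k + g) ≠ 0) : γ (k + 1) ≠ 0 := by
  classical
  intro hcon
  have hex : ∃ j, 0 < j ∧ γ (k + j) ≠ 0 := ⟨g, hg, h1⟩
  set j := Nat.find hex with hj
  have hj1 := Nat.find_spec hex
  have hmin : ∀ i, 0 < i → i < j → γ (k + i) = 0 := by
    intro i hi hij
    by_contra hne
    exact Nat.find_min hex hij ⟨hi, hne⟩
  have hj2 : 2 ≤ j := by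
    rcases Nat.lt_or_ge j 2 with h3 | h3
    · have : j = 1 := by
        have := hj1.1
        omega
      have h4 := hj1.2
      rw [← hj, this] at h4
      exact absurd hcon h4
    · exact h3
  exact gap_aux (ms_shift h k) hj2 (by simpa using h0) hj1.2 hmin

theorem same_sign {γ : ℕ → ℝ} (h : IsMultiplierSequence γ) : ∀ (g k : ℕ), γ k ≠ 0 →
    γ (k + 2 * g) ≠ 0 → 0 < γ k * γ (k + 2 * g) := by
  intro g
  induction g with
  | zero =>
    intro k h0 _
    rw [Nat.mul_zero, Nat.add_zero]
    exact mul_self_pos.2 h0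
  | succ g ih =>
    intro k h0 h1
    have e1 : γ (k + 1) ≠ 0 := next_ne h (g := 2 * (g + 1)) (by omega) h0 h1
    have e2 : γ (k + 1 + 1) ≠ 0 := next_ne h (g := 2 * g + 1) (by omega) e1 (by
      rwa [show k + 1 + (2 * g + 1) = k + 2 * (g + 1) by ring])
    have e3 := ih (k + 2) e2 (by rwa [show k + 2 + 2 * g = k + 2 * (g + 1) by ring])
    have e4 : 0 ≤ γ k * γ (k + 2) := by
      have := ms_sign (ms_shift h k)
      simpa using this
    have e5 : 0 < γ k * γ (k + 2) := lt_of_le_of_ne e4 (Ne.symm (mul_ne_zero h0 e2))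
    rw [show k + 2 + 2 * g = k + 2 * (g + 1) by ring] at e3
    have e6 : 0 < (γ k * γ (k + 2)) * (γ (k + 2) * γ (k + 2 * (g + 1))) := mul_pos e5 e3
    have e7 : (γ k * γ (k + 2)) * (γ (k + 2) * γ (k + 2 * (g + 1))) =
        (γ k * γ (k + 2 * (g + 1))) * (γ (k + 2)) ^ 2 := by ring
    rw [e7] at e6
    have e8 : 0 < (γ (k + 2)) ^ 2 := by positivity
    exact (mul_pos_iff_of_pos_right e8).1 e6

/-- The sign `-1` for `true` and `1` for `false`. -/
def sg (b : Bool) : ℝ := if b then -1 else 1

theorem sg_mul_self (b : Bool) : sg b * sg b = 1 := by cases b <;> simp [sg]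

theorem abs_eq_sg (x : ℝ) : |x| = sg (decide (x < 0)) * x := by
  by_cases h : x < 0
  · simp [sg, h, abs_of_neg h]
  · simp [sg, h, abs_of_nonneg (not_lt.1 h)]

theorem eq_sg_abs (x : ℝ) : x = sg (decide (x < 0)) * |x| := by
  rw [abs_eq_sg, ← mul_assoc, sg_mul_self, one_mul]

/-- The sign pattern of a multiplier sequence. -/
theorem ms_pattern {γ : ℕ → ℝ} (h : IsMultiplierSequence γ) : ∃ a b : Bool, ∀ k, γ k ≠ 0 →
    decide (γ k < 0) = if Even k then a else b := by
  have key : ∀ e : ℕ, ∃ a : Bool, ∀ k, k % 2 = e → γ k ≠ 0 → decide (γ k < 0) = a := by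
    intro e
    by_cases hex : ∃ k, k % 2 = e ∧ γ k ≠ 0
    · obtain ⟨k0, hk0, hne0⟩ := hex
      refine ⟨decide (γ k0 < 0), fun k hk hne => ?_⟩
      have hpos : 0 < γ k0 * γ k := by
        rcases le_total k0 k with hle | hle
        · have : k = k0 + 2 * ((k - k0) / 2) := by omega
          have h1 := same_sign h ((k - k0) / 2) k0 hne0 (by rwa [← this])
          rwa [← this] at h1
        · have : k0 = k + 2 * ((k0 - k) / 2) := by omega
          have h1 := same_sign h ((k0 - k) / 2) k hne (by rwa [← this])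
          rw [← this] at h1
          linarith [mul_comm (γ k) (γ k0)]
      rcases lt_or_gt_of_ne hne0 with h2 | h2
      · have h3 : γ k < 0 := by
          by_contra hcon
          push Not at hcon
          nlinarith
        simp [h2, h3]
      · have h3 : ¬ γ k < 0 := by
          intro hcon
          nlinarith
        rw [decide_eq_decide]
        exact ⟨fun h5 => absurd h5 h3, fun h5 => absurd h5 (not_lt.2 h2.le)⟩
    · push Not at hex
      exact ⟨false, fun k hk hne => absurd (hex k hk) hne⟩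
  obtain ⟨a, ha⟩ := key 0
  obtain ⟨b, hb⟩ := key 1
  refine ⟨a, b, fun k hne => ?_⟩
  by_cases hk : Even k
  · rw [if_pos hk]; exact ha k (Nat.even_iff.1 hk) hne
  · rw [if_neg hk]; exact hb k (by rw [Nat.even_iff] at hk; omega) hne

theorem ms_alt : IsMultiplierSequence (fun k => (-1 : ℝ) ^ k) := by
  intro p hp
  have : act (fun k => (-1 : ℝ) ^ k) p = p.comp (C (-1) * X) := by
    ext k; rw [act_eq, comp_C_mul_X_coeff, mul_comm]
  rw [this]
  rcases hp with rfl | hp
  · left; simp
  · right
    intro z hz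
    rw [aeval_comp] at hz
    have := hp _ hz
    simpa using this

/-- Sequences of signs which depend on the parity only. -/
theorem ms_parity (a b : Bool) : IsMultiplierSequence (fun k => sg (if Even k then a else b)) := by
  by_cases hab : a = b
  · subst hab
    simpa using ms_const (sg a)
  · have h1 := ms_mul (ms_const (sg a)) ms_alt
    convert h1 using 2 with k
    by_cases hk : Even k
    · rw [if_pos hk, hk.neg_one_pow, mul_one]
    · rw [if_neg hk, (Nat.not_even_iff_odd.1 hk).neg_one_pow]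
      cases a <;> cases b <;> simp_all [sg]

theorem ms_abs {γ : ℕ → ℝ} (h : IsMultiplierSequence γ) : IsMultiplierSequence (fun k => |γ k|) := by
  obtain ⟨a, b, hab⟩ := ms_pattern h
  have h1 := ms_mul (ms_parity a b) h
  convert h1 using 2 with k
  by_cases h0 : γ k = 0
  · rw [h0]; simp
  · rw [abs_eq_sg, hab k h0]

/-! ### The classification -/

theorem classifyR_mp {n : ℕ} {Ψ : (Fin n → ℝ) → ℝ} (hΨ : AdmissibleR Ψ) :
    ∃ (c : ℝ) (m : Fin n → ℕ) (σ : (Fin n → Bool) → Bool),
      (∀ s s', (∀ i, m i ≠ 0 → s i = s' i) → σ s = σ s') ∧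
      ∀ x : Fin n → ℝ, Ψ x = c * sg (σ fun i => decide (x i < 0)) * ∏ i, |x i| ^ m i := by
  classical
  have h1 : ∀ s : Fin n → Bool, ∃ (c : ℝ) (m : Fin n → ℕ), ∀ x : Fin n → ℝ, (∀ i, 0 ≤ x i) →
      Ψ (fun i => sg (s i) * x i) = c * ∏ i, x i ^ m i := by
    intro s
    refine classifyN_mp n (fun x => Ψ (fun i => sg (s i) * x i)) ?_
    intro α _ hα
    exact hΨ (fun i k => sg (s i) * α i k) (fun i => ms_mul (ms_const (sg (s i))) (hα i))
  choose c m hcm using h1
  -- comparison of two sign vectors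
  have cmp : ∀ (s s' : Fin n → Bool) (t : Fin n → ℝ), (∀ i, 0 ≤ t i) →
      (c s * ∏ i, t i ^ m s i) ^ 2 = (c s' * ∏ i, t i ^ m s' i) ^ 2 := by
    intro s s' t ht
    have h2 := hΨ (fun i k => sg (if Even k then s i else s' i) * t i)
      (fun i => ms_mul (ms_parity (s i) (s' i)) (ms_const (t i)))
    have hJ := inJ_of_ms h2
    have ee : ∀ k : ℕ, Even k → Ψ (fun i => sg (if Even k then s i else s' i) * t i) =
        c s * ∏ i, t i ^ m s i := by
      intro k hk
      simp only [if_pos hk]
      exact hcm s t ht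
    have eo : ∀ k : ℕ, ¬ Even k → Ψ (fun i => sg (if Even k then s i else s' i) * t i) =
        c s' * ∏ i, t i ^ m s' i := by
      intro k hk
      simp only [if_neg hk]
      exact hcm s' t ht
    have n0 := hJ.newton 0
    have n1 := hJ.newton 1
    simp only [zero_add] at n0
    rw [ee 0 (by decide), ee 2 (by decide), eo 1 (by decide)] at n0
    rw [eo 1 (by decide), eo (1 + 2) (by decide), ee (1 + 1) (by decide)] at n1
    nlinarith
  have cmp1 : ∀ s s', c s ^ 2 = c s' ^ 2 := by
    intro s s'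
    have := cmp s s' (fun _ => 1) (fun _ => zero_le_one)
    simpa using this
  set s₀ : Fin n → Bool := fun _ => false with hs₀
  have hrep : ∀ x : Fin n → ℝ, Ψ x = c (fun i => decide (x i < 0)) *
      ∏ i, |x i| ^ m (fun i => decide (x i < 0)) i := by
    intro x
    rw [← hcm (fun i => decide (x i < 0)) (fun i => |x i|) (fun i => abs_nonneg _)]
    congr 1
    funext i
    exact eq_sg_abs (x i)
  by_cases hc0 : c s₀ = 0
  · refine ⟨0, 0, fun _ => false, fun _ _ _ => rfl, fun x => ?_⟩
    have h3 : c (fun i => decide (x i < 0)) = 0 := by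
      have := cmp1 (fun i => decide (x i < 0)) s₀
      rw [hc0] at this
      simpa using this
    rw [hrep x, h3]; simp
  · have hcne : ∀ s, c s ≠ 0 := by
      intro s hs
      have := cmp1 s₀ s
      rw [hs] at this
      exact hc0 (by simpa using this)
    have hm : ∀ s, m s = m s₀ := by
      intro s
      funext i
      have h4 := cmp s s₀ (Function.update (fun _ => (1 : ℝ)) i 2) (by
        intro j
        by_cases hj : j = i
        · subst hj; simp
        · rw [Function.update_of_ne hj]; exact zero_le_one)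
      rw [prod_update_two, prod_update_two, mul_pow, mul_pow, cmp1 s s₀] at h4
      have h5 := mul_left_cancel₀ (pow_ne_zero 2 hc0) h4
      have h6 : ((2 : ℕ) ^ m s i) ^ 2 = (2 ^ m s₀ i) ^ 2 := by exact_mod_cast h5
      have h7 : (2 : ℕ) ^ m s i = 2 ^ m s₀ i := Nat.pow_left_injective (by norm_num) h6
      exact Nat.pow_right_injective (le_refl 2) h7
    set σ : (Fin n → Bool) → Bool := fun s => decide (c s ≠ c s₀) with hσ
    have hcσ : ∀ s, c s = c s₀ * sg (σ s) := by
      intro s
      by_cases h8 : c s = c s₀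
      · simp [hσ, sg, h8]
      · have h9 : c s = - c s₀ := by
          have h10 := cmp1 s s₀
          rcases sq_eq_sq_iff_eq_or_eq_neg.1 h10 with h11 | h11
          · exact absurd h11 h8
          · exact h11
        have h12 : σ s = true := by simp [hσ, h8]
        rw [h12, h9]; simp [sg]
    refine ⟨c s₀, m s₀, σ, ?_, ?_⟩
    · intro s s' hss
      have h13 : c s = c s' := by
        set t : Fin n → ℝ := fun i => if m s₀ i = 0 then 0 else 1 with ht
        have ht0 : ∀ i, 0 ≤ t i := by
          intro i; simp only [ht]; split_ifs <;> norm_num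
        have hprod : ∏ i, t i ^ m s₀ i = 1 := by
          apply Finset.prod_eq_one
          intro i _
          simp only [ht]
          split_ifs with h14
          · rw [h14, pow_zero]
          · rw [one_pow]
        have e1 := hcm s t ht0
        have e2 := hcm s' t ht0
        rw [hm s, hprod, mul_one] at e1
        rw [hm s', hprod, mul_one] at e2
        rw [← e1, ← e2]
        congr 1
        funext i
        by_cases h14 : m s₀ i = 0
        · simp [ht, h14]
        · rw [hss i h14]
      simp only [hσ, h13]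
    · intro x
      rw [hrep x, hm, hcσ]

theorem classifyR {n : ℕ} (Ψ : (Fin n → ℝ) → ℝ) : AdmissibleR Ψ ↔
    ∃ (c : ℝ) (m : Fin n → ℕ) (σ : (Fin n → Bool) → Bool),
      (∀ s s', (∀ i, m i ≠ 0 → s i = s' i) → σ s = σ s') ∧
      ∀ x : Fin n → ℝ, Ψ x = c * sg (σ fun i => decide (x i < 0)) * ∏ i, |x i| ^ m i := by
  refine ⟨classifyR_mp, ?_⟩
  rintro ⟨c, m, σ, hσ, h⟩ α hα
  choose a b hab using fun i => ms_pattern (hα i)
  have h1 : (fun k => Ψ fun i => α i k) =
      fun k => c * (sg (if Even k then σ a else σ b) * ∏ i, |α i k| ^ m i) := by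
    funext k
    rw [h]
    by_cases h0 : ∏ i, |α i k| ^ m i = 0
    · rw [h0]; simp
    · have h2 : ∀ i, m i ≠ 0 → α i k ≠ 0 := by
        intro i hi h3
        apply h0
        apply Finset.prod_eq_zero (Finset.mem_univ i)
        rw [h3, abs_zero, zero_pow hi]
      have h3 : σ (fun i => decide (α i k < 0)) = if Even k then σ a else σ b := by
        by_cases hk : Even k
        · rw [if_pos hk]
          apply hσ
          intro i hi
          have := hab i k (h2 i hi)
          rwa [if_pos hk] at this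
        · rw [if_neg hk]
          apply hσ
          intro i hi
          have := hab i k (h2 i hi)
          rwa [if_neg hk] at this
      rw [h3, mul_assoc]
  rw [h1]
  exact ms_mul (ms_const c) (ms_mul (ms_parity _ _) (ms_prod (fun i => ms_abs (hα i)) m))

end Pool.Agent.Y520.MS
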