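import Pool.Agent.Helper771.MultSeq

/-!
# Functions of one variable which preserve the simplest multiplier sequences

The arguments of `Pool.Agent.Helper771.MultSeq` with the test sequences `(a + b k) r ^ k` and
`(x, y, 0, 0, ...)` only.
-/

set_option autoImplicit false

namespace Pool.Agent.Y520.MS

open Polynomial Pool.Agent.Helper771.MultSeq

/-- The test sequences: `(a + b k) r ^ k` with `a, b ≥ 0`, `r > 0`, and `(x, y, 0, 0, ...)` with
`x, y ≥ 0`. -/
def Test (α : ℕ → ℝ) : Prop :=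
  (∃ a b r : ℝ, 0 ≤ a ∧ 0 ≤ b ∧ 0 < r ∧ ∀ k : ℕ, α k = (a + b * k) * r ^ k) ∨
  (∃ x y : ℝ, 0 ≤ x ∧ 0 ≤ y ∧ ∀ k : ℕ, α k = if k = 0 then x else if k = 1 then y else 0)

theorem Test.nonneg {α : ℕ → ℝ} (h : Test α) (k : ℕ) : 0 ≤ α k := by
  rcases h with ⟨a, b, r, ha, hb, hr, h⟩ | ⟨x, y, hx, hy, h⟩
  · rw [h]; positivity
  · rw [h]; split_ifs <;> first | assumption | exact le_rfl

theorem Test.ms {α : ℕ → ℝ} (h : Test α) : IsMultiplierSequence α := by
  rcases h with ⟨a, b, r, ha, hb, hr, h⟩ | ⟨x, y, hx, hy, h⟩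
  · have h1 := ms_mul (ms_lin ha hb) (ms_geom 1 hr)
    have h2 : α = fun k : ℕ => (a + b * k) * (1 * r ^ k) := by
      funext k; rw [h, one_mul]
    rw [h2]; exact h1
  · apply ms_low
    intro k hk
    rw [h, if_neg (by omega), if_neg (by omega)]

theorem test_geom {t r : ℝ} (ht : 0 ≤ t) (hr : 0 < r) : Test (fun k => t * r ^ k) :=
  Or.inl ⟨t, 0, r, ht, le_rfl, hr, fun k => by simp⟩

theorem test_lin {a b : ℝ} (ha : 0 ≤ a) (hb : 0 ≤ b) : Test (fun k : ℕ => a + b * k) :=
  Or.inl ⟨a, b, 1, ha, hb, one_pos, fun k => by simp⟩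

/-- Functions which send the test sequences to multiplier sequences. -/
def PresT (f : ℝ → ℝ) : Prop :=
  ∀ α : ℕ → ℝ, Test α → IsMultiplierSequence (fun k => f (α k))

theorem PresT.sign {f : ℝ → ℝ} (hf : PresT f) {x z : ℝ} (hx : 0 < x) (hz : 0 < z) :
    0 ≤ f x * f z := by
  have hr : 0 < Real.sqrt (z / x) := Real.sqrt_pos.2 (by positivity)
  have h1 := hf (fun k => x * Real.sqrt (z / x) ^ k) (test_geom hx.le hr)
  have h2 := ms_sign h1
  simp only [pow_zero, mul_one] at h2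
  rw [Real.sq_sqrt (by positivity)] at h2
  rwa [show x * (z / x) = z by field_simp] at h2

theorem PresT.mono {f : ℝ → ℝ} (hf : PresT f) (hf0 : ∀ x, 0 < x → 0 ≤ f x) {x y : ℝ}
    (hx : 0 < x) (hxy : x ≤ y) : f x ≤ f y := by
  set Y : ℝ := y / x with hY
  have hY1 : 1 ≤ Y := by rw [hY, one_le_div hx]; exact hxy
  set u : ℝ := Real.sqrt (Y ^ 2 - 1) with hu
  have hu2 : u ^ 2 = Y ^ 2 - 1 := Real.sq_sqrt (by nlinarith)
  have hu0 : 0 ≤ u := Real.sqrt_nonneg _
  have huY : u < Y := by nlinarith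
  set t : ℝ := Y - u with ht
  have ht0 : 0 < t := by rw [ht]; linarith
  have h1 := hf (fun k : ℕ => (x / t * t ^ k) * (t + u * k))
    (Or.inl ⟨x / t * t, x / t * u, t, by positivity, by positivity, ht0, fun k => by ring⟩)
  have h2 := (inJ_of_ms h1).newton 0
  simp only [zero_add, pow_zero, mul_one, Nat.cast_zero, mul_zero, add_zero, pow_one,
    Nat.cast_one, Nat.cast_ofNat] at h2
  have e0 : x / t * t = x := by field_simp
  have e1 : x / t * t * (t + u) = y := by
    rw [e0, ht, sub_add_cancel, hY]; field_simp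
  have e2 : x / t * t ^ 2 * (t + u * 2) = x := by
    have : t * (t + u * 2) = 1 := by
      rw [ht]; nlinarith
    calc x / t * t ^ 2 * (t + u * 2) = x / t * t * (t * (t + u * 2)) := by ring
      _ = x := by rw [this, e0, mul_one]
  rw [e1, e0, e2] at h2
  have h3 := hf0 x hx
  have h4 := hf0 y (by linarith)
  nlinarith

theorem PresT.growth {f : ℝ → ℝ} (hf : PresT f) (hf0 : ∀ x, 0 < x → 0 ≤ f x) {x₀ : ℝ}
    (hx₀ : 0 < x₀) (hfx : 0 < f x₀) :
    ∃ R : ℝ, 1 ≤ R ∧ ∀ k : ℕ, f (x₀ * 2 ^ k) ≤ f x₀ * R ^ k := by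
  have hpos : ∀ k : ℕ, f x₀ ≤ f (x₀ * 2 ^ k) := by
    intro k
    apply hf.mono hf0 hx₀
    have : (1 : ℝ) ≤ 2 ^ k := one_le_pow₀ (by norm_num)
    nlinarith
  have hJ := inJ_of_ms (hf (fun k => x₀ * 2 ^ k) (test_geom hx₀.le (by norm_num)))
  refine ⟨f (x₀ * 2 ^ 1) / f x₀, ?_, ?_⟩
  · rw [one_le_div hfx]; exact hpos 1
  · set R := f (x₀ * 2 ^ 1) / f x₀ with hR
    have hR0 : 0 ≤ R := div_nonneg (hfx.le.trans (hpos 1)) hfx.le
    have step : ∀ k : ℕ, f (x₀ * 2 ^ (k + 1)) ≤ R * f (x₀ * 2 ^ k) := by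
      intro k
      induction k with
      | zero => simp only [zero_add, pow_zero, mul_one]; rw [hR]; field_simp; exact le_rfl
      | succ k ih =>
        have h1 := hJ.newton k
        have h2 : 0 < f (x₀ * 2 ^ k) := hfx.trans_le (hpos k)
        have h3 : 0 < f (x₀ * 2 ^ (k + 1)) := hfx.trans_le (hpos _)
        have h4 : f (x₀ * 2 ^ k) * f (x₀ * 2 ^ (k + 2)) ≤
            f (x₀ * 2 ^ k) * (R * f (x₀ * 2 ^ (k + 1))) := by
          calc _ ≤ f (x₀ * 2 ^ (k + 1)) ^ 2 := h1
            _ = f (x₀ * 2 ^ (k + 1)) * f (x₀ * 2 ^ (k + 1)) := by ring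
            _ ≤ (R * f (x₀ * 2 ^ k)) * f (x₀ * 2 ^ (k + 1)) := by gcongr
            _ = _ := by ring
        exact le_of_mul_le_mul_left h4 h2
    intro k
    induction k with
    | zero => simp
    | succ k ih =>
      calc f (x₀ * 2 ^ (k + 1)) ≤ R * f (x₀ * 2 ^ k) := step k
        _ ≤ R * (f x₀ * R ^ k) := by gcongr
        _ = f x₀ * R ^ (k + 1) := by ring

theorem PresT.polynomial {f : ℝ → ℝ} (hf : PresT f) (hf0 : ∀ x, 0 < x → 0 ≤ f x) {x₀ : ℝ}
    (hx₀ : 0 < x₀) (hfx : 0 < f x₀) : ∃ Q : ℝ[X], ∀ x, 0 < x → f x = Q.eval x := by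
  apply global_poly (fun x y hx hxy => hf.mono hf0 hx hxy)
  intro a b ha hb
  obtain ⟨R, hR1, hR⟩ := hf.growth hf0 hx₀ hfx
  obtain ⟨D, hD⟩ := pow_unbounded_of_one_lt R (by norm_num : (1 : ℝ) < 2)
  obtain ⟨M, hM⟩ := exists_nat_gt ((a + b) / x₀)
  rw [div_lt_iff₀ hx₀] at hM
  have hMpos : 0 < (M : ℝ) := by
    by_contra h
    push Not at h
    nlinarith
  have hMpos' : 0 < M := by exact_mod_cast hMpos
  have hJ := inJ_of_ms (hf (fun k : ℕ => a + b * k) (test_lin ha.le hb.le))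
  have hpos : ∀ k : ℕ, 0 < a + b * (k : ℝ) := fun k => by positivity
  obtain ⟨c, hc⟩ := InJ.poly D (fun k : ℕ => f (a + b * k)) hJ (fun k => hf0 _ (hpos k))
    (fun k => hf.mono hf0 (hpos k) (by push_cast; nlinarith))
    ⟨f x₀ * (2 * M) ^ D, by
      intro k
      set n := Nat.clog 2 (M * (k + 1)) with hn
      have h1 : M * (k + 1) ≤ 2 ^ n := Nat.le_pow_clog (by norm_num) _
      have h2 : 2 ^ n ≤ 2 * (M * (k + 1)) := by
        by_cases h : M * (k + 1) = 1
        · rw [hn, h]; simp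
        · have hgt : 1 < M * (k + 1) := by
            have : 0 < M * (k + 1) := by positivity
            omega
          have h3 := Nat.pow_pred_clog_lt_self (b := 2) (by norm_num) hgt
          rw [← hn] at h3
          have hn0 : n ≠ 0 := by
            rw [hn]
            exact (Nat.clog_pos (by norm_num) hgt).ne'
          obtain ⟨n', hn'⟩ := Nat.exists_eq_succ_of_ne_zero hn0
          rw [hn'] at h3 ⊢
          simp only [Nat.succ_eq_add_one, Nat.pred_eq_sub_one, Nat.add_sub_cancel] at h3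
          rw [Nat.succ_eq_add_one, pow_succ]
          omega
      have h1' : (M : ℝ) * (k + 1) ≤ 2 ^ n := by exact_mod_cast h1
      have h2' : (2 : ℝ) ^ n ≤ 2 * (M * (k + 1)) := by exact_mod_cast h2
      have hk0 : (0 : ℝ) ≤ k := by positivity
      have h3 : a + b * k ≤ x₀ * 2 ^ n := by
        calc a + b * k ≤ (a + b) * (k + 1) := by nlinarith
          _ ≤ (M * x₀) * (k + 1) := by gcongr
          _ = x₀ * (M * (k + 1)) := by ring
          _ ≤ x₀ * 2 ^ n := by gcongr
      calc f (a + b * k) ≤ f (x₀ * 2 ^ n) := hf.mono hf0 (hpos k) h3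
        _ ≤ f x₀ * R ^ n := hR n
        _ ≤ f x₀ * ((2 : ℝ) ^ D) ^ n := by gcongr
        _ = f x₀ * (2 ^ n) ^ D := by rw [← pow_mul, ← pow_mul, mul_comm D n]
        _ ≤ f x₀ * (2 * (M * (k + 1))) ^ D := by gcongr
        _ = f x₀ * (2 * M) ^ D * ((k : ℝ) + 1) ^ D := by rw [mul_assoc, ← mul_pow]; ring⟩
  obtain ⟨Q, hQ⟩ := exists_poly_of_choose D c
  exact ⟨Q, fun k => by rw [hQ, ← hc]⟩

theorem PresT.pos_part {f : ℝ → ℝ} (hf : PresT f) (hf0 : ∀ x, 0 < x → 0 ≤ f x) :
    ∃ (c : ℝ) (m : ℕ), ∀ x, 0 < x → f x = c * x ^ m := by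
  by_cases hex : ∃ x₀, 0 < x₀ ∧ 0 < f x₀
  · obtain ⟨x₀, hx₀, hfx⟩ := hex
    obtain ⟨Q, hQ⟩ := hf.polynomial hf0 hx₀ hfx
    have hJ := inJ_of_ms (hf (fun k => 1 * 2 ^ k) (test_geom zero_le_one (by norm_num)))
    have hJ' : InJ (fun k => Q.eval ((2 : ℝ) ^ k)) := by
      convert hJ using 2 with k
      rw [one_mul]
      exact (hQ _ (by positivity)).symm
    obtain ⟨c, m, rfl⟩ := monomial_of_inJ hJ'
    refine ⟨c, m, fun x hx => ?_⟩
    rw [hQ x hx]
    simp
  · push Not at hex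
    exact ⟨0, 0, fun x hx => by rw [le_antisymm (hex x hx) (hf0 x hx)]; simp⟩

theorem PresT.neg {f : ℝ → ℝ} (hf : PresT f) : PresT (fun x => - f x) := by
  
  intro α hα
  have := ms_mul (ms_const (-1)) (hf α hα)
  simpa using this

theorem PresT.pos_part' {f : ℝ → ℝ} (hf : PresT f) :
    ∃ (c : ℝ) (m : ℕ), ∀ x, 0 < x → f x = c * x ^ m := by
  by_cases hex : ∃ x₀, 0 < x₀ ∧ 0 < f x₀
  · obtain ⟨x₀, hx₀, hfx⟩ := hex
    apply hf.pos_part
    intro x hx
    have := hf.sign hx₀ hx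
    exact nonneg_of_mul_nonneg_right this hfx
  · push Not at hex
    obtain ⟨c, m, h⟩ := hf.neg.pos_part (fun x hx => by have := hex x hx; linarith)
    refine ⟨-c, m, fun x hx => ?_⟩
    have := h x hx
    linarith

/-- The one-variable classification. -/
theorem PresT.classify {f : ℝ → ℝ} (hf : PresT f) :
    ∃ (c : ℝ) (m : ℕ), ∀ x, 0 ≤ x → f x = c * x ^ m := by
  obtain ⟨c, m, h⟩ := hf.pos_part'
  have hzero : f 0 = c * 0 ^ m := by
    by_cases hc : c = 0
    · -- `f = 0` on the positive axis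
      subst hc
      have h1 := hf (fun k => if k = 0 then 1 else 0)
        (Or.inr ⟨1, 0, zero_le_one, le_rfl, fun k => by simp⟩)
      have h2 := not_ms_step (c := f 0) h1 (by simp [h 1 one_pos])
        (fun k hk => by rw [if_neg (by omega)])
      rw [h2]; simp
    · -- use `(x, x, 0, 0, ...)`
      have hx : ∀ x : ℝ, 0 < x → f 0 = 0 ∨ f 0 = c * x ^ m := by
        intro x hx
        have h1 := hf (fun k => if k < 2 then x else 0)
          (Or.inr ⟨x, x, hx.le, hx.le, fun k => by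
            rcases k with _ | _ | k <;> simp⟩)
        have h2 := ms_sign h1
        have h3 := (inJ_of_ms h1).newton 0
        have h4 := (inJ_of_ms h1).newton 1
        norm_num at h2 h3 h4
        rw [h x hx] at h2 h3 h4
        by_cases hf0 : f 0 = 0
        · exact Or.inl hf0
        · right
          set g := c * x ^ m with hg
          have hgne : g ≠ 0 := mul_ne_zero hc (pow_ne_zero _ hx.ne')
          have h5 : 0 < g * f 0 := lt_of_le_of_ne h2 (Ne.symm (mul_ne_zero hgne hf0))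
          rcases lt_or_gt_of_ne hgne with hg' | hg'
          · have : f 0 < 0 := by nlinarith
            nlinarith
          · have : 0 < f 0 := by nlinarith
            nlinarith
      by_cases hm : m = 0
      · subst hm
        rcases hx 1 one_pos with h0 | h0
        · exfalso
          have h1 := hf (fun k : ℕ => 0 + 1 * (k : ℝ)) (test_lin le_rfl zero_le_one)
          have h2 := not_ms_step (c := c) h1 (by simpa using h0) (by
            intro k hk
            have hk' : (0 : ℝ) < 0 + 1 * (k : ℝ) := by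
              have : (0 : ℝ) < k := by exact_mod_cast hk
              linarith
            rw [h _ hk']
            simp)
          exact hc h2
        · simpa using h0
      · rcases hx 1 one_pos with h0 | h0
        · rw [h0, zero_pow hm, mul_zero]
        · rcases hx 2 two_pos with h1 | h1
          · rw [h1, zero_pow hm, mul_zero]
          · exfalso
            rw [h0] at h1
            have h2 : (1 : ℝ) ^ m = 2 ^ m := mul_left_cancel₀ hc h1
            rw [one_pow] at h2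
            have h3 : (1 : ℝ) < 2 ^ m := one_lt_pow₀ (by norm_num) hm
            linarith
  refine ⟨c, m, fun x hx => ?_⟩
  rcases hx.eq_or_lt with rfl | hx
  · exact hzero
  · exact h x hx


end Pool.Agent.Y520.MS
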